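import Pool.Agent.Lib.helper11.DiagTM

set_option autoImplicit false

namespace Pool.Agent.Results.MP_6c430b_al.Undecidable

open H11Diag

theorem result : ¬ ∃ f : List (List ℕ × List ℕ) × List ℕ →. Bool, Partrec f ∧
    ∀ (R : List (List ℕ × List ℕ)) (w : List ℕ),
      (∀ r ∈ R, r.1 ≠ [] ∧ r.2 ≠ [] ∧ r.swap ∉ R) → w ≠ [] →
      ∃ b ∈ f (R, w), (b = true ↔ Nontrivial (DG {r | r ∈ R} w)) := by
  rintro ⟨f, hf, H⟩
  obtain ⟨R, w, P, hw, hR, hne, hP, hG⟩ := undec
  have hv : ∀ r ∈ R, r.1 ≠ [] ∧ r.2 ≠ [] ∧ r.swap ∉ R := by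
    intro r hr
    obtain ⟨h1, h2⟩ := hR r hr
    refine ⟨h1, ?_, fun h => ?_⟩
    · intro h; simp [h] at h2
    · have := (hR _ h).2
      simp at this; omega
  choose b hb hb' using fun n => H R (w n) hv (hne n)
  have hc : Computable b :=
    (hf.comp ((Computable.const R).pair hw)).of_eq_tot hb
  apply hP
  rw [ComputablePred.computable_iff]
  refine ⟨b, hc, funext fun n => propext ?_⟩
  rw [hb' n]
  constructor
  · intro h
    obtain ⟨φ, g, hg⟩ := (hG n).1 h
    refine ⟨⟨g, 1, fun e => ?_⟩⟩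
    rw [e, map_one] at hg
    exact absurd (congrArg Multiplicative.toAdd hg) (by simp)
  · rintro ⟨a, c, h⟩
    by_contra hn
    exact h (((hG n).2 hn a).trans ((hG n).2 hn c).symm)

end Pool.Agent.Results.MP_6c430b_al.Undecidable
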